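import Pool.Agent.Y318.MH.Stm

set_option autoImplicit false

/-!
# Project MH: adding a small trigonometric polynomial makes the critical set finite
-/

open Set Filter Topology MeasureTheory

namespace Pool.Agent.Y625.MH

open Pool.Agent.H728R2.OS Pool.Agent.Y318.LF Pool.Agent.Y318.MH

variable {d : ℕ}

/-- the space of pairs `(z, p)` -/
abbrev E2 (d : ℕ) : Type := (Fin d → ℝ) × (Fin d → ℝ)

/-- the partial derivative -/
noncomputable def qq (H : (Fin d → ℝ) → ℝ) (i : Fin d) (z : Fin d → ℝ) : ℝ :=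
  -(fderiv ℝ H z (Pi.single i 1)) / (2 * Real.pi)

/-- the map whose regular values give Morse functions -/
noncomputable def Th (H : (Fin d → ℝ) → ℝ) (x : E2 d) : E2 d :=
  (fun i => qq H i x.1 * Real.cos (2 * Real.pi * x.1 i) + x.2 i * Real.sin (2 * Real.pi * x.1 i),
   fun i => -(qq H i x.1) * Real.sin (2 * Real.pi * x.1 i) +
    x.2 i * Real.cos (2 * Real.pi * x.1 i))

theorem qq_contDiff {H : (Fin d → ℝ) → ℝ} (hH : ContDiff ℝ 2 H) (i : Fin d) :
    ContDiff ℝ 1 (qq H i) := by
  have h1 : ContDiff ℝ 1 (fderiv ℝ H) := hH.fderiv_right (by norm_num)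
  exact ((h1.clm_apply contDiff_const).neg).div_const _

theorem Th_contDiff {H : (Fin d → ℝ) → ℝ} (hH : ContDiff ℝ 2 H) : ContDiff ℝ 1 (Th H) := by
  have h1 : ∀ i : Fin d, ContDiff ℝ 1 (fun x : E2 d => x.1 i) := fun i =>
    (contDiff_apply ℝ ℝ i).comp contDiff_fst
  have h2 : ∀ i : Fin d, ContDiff ℝ 1 (fun x : E2 d => x.2 i) := fun i =>
    (contDiff_apply ℝ ℝ i).comp contDiff_snd
  have h3 : ∀ i : Fin d, ContDiff ℝ 1 (fun x : E2 d => qq H i x.1) := fun i =>
    (qq_contDiff hH i).comp contDiff_fst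
  have h4 : ∀ i : Fin d, ContDiff ℝ 1 (fun x : E2 d => Real.cos (2 * Real.pi * x.1 i)) := fun i =>
    Real.contDiff_cos.comp (contDiff_const.mul (h1 i))
  have h5 : ∀ i : Fin d, ContDiff ℝ 1 (fun x : E2 d => Real.sin (2 * Real.pi * x.1 i)) := fun i =>
    Real.contDiff_sin.comp (contDiff_const.mul (h1 i))
  apply ContDiff.prodMk
  · rw [contDiff_pi]
    intro i
    exact ((h3 i).mul (h4 i)).add ((h2 i).mul (h5 i))
  · rw [contDiff_pi]
    intro i
    exact (((h3 i).neg).mul (h5 i)).add ((h2 i).mul (h4 i))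

/-- there are small regular values -/
theorem exists_regular {H : (Fin d → ℝ) → ℝ} (hH : ContDiff ℝ 2 H) {ε : ℝ} (hε : 0 < ε) :
    ∃ a b : Fin d → ℝ, ‖a‖ < ε ∧ ‖b‖ < ε ∧
      ∀ x, Th H x = (a, b) → (fderiv ℝ (Th H) x).det ≠ 0 := by
  set s : Set (E2 d) := {x | (fderiv ℝ (Th H) x).det = 0} with hs
  have hd : Differentiable ℝ (Th H) := (Th_contDiff hH).differentiable one_ne_zero
  set μ : Measure (E2 d) := (volume : Measure (Fin d → ℝ)).prod volume with hμ
  have hh : μ.IsAddHaarMeasure := Measure.prod.instIsAddHaarMeasure _ _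
  have h0 : μ (Th H '' s) = 0 :=
    addHaar_image_eq_zero_of_det_fderivWithin_eq_zero μ
      (fun x _ => (hd x).hasFDerivAt.hasFDerivWithinAt) (fun x hx => hx)
  have h1 : μ (Metric.ball (0 : E2 d) ε \ Th H '' s) ≠ 0 := by
    rw [measure_sdiff_null h0]
    exact (Metric.measure_ball_pos μ _ hε).ne'
  obtain ⟨y, hy1, hy2⟩ := nonempty_of_measure_ne_zero h1
  rw [mem_ball_zero_iff, Prod.norm_def, max_lt_iff] at hy1
  refine ⟨y.1, y.2, hy1.1, hy1.2, fun x hx hdet => hy2 ⟨x, hdet, ?_⟩⟩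
  rw [hx]

theorem trig_hasFDerivAt (a b : Fin d → ℝ) (z : Fin d → ℝ) :
    HasFDerivAt (trig a b) (∑ i, ((2 * Real.pi) * (a i * Real.cos (2 * Real.pi * z i) -
      b i * Real.sin (2 * Real.pi * z i))) • (ContinuousLinearMap.proj (R := ℝ)
        (φ := fun _ : Fin d => ℝ) i)) z := by
  have h : ∀ i : Fin d, HasFDerivAt (fun z : Fin d → ℝ =>
      a i * Real.sin (2 * Real.pi * z i) + b i * Real.cos (2 * Real.pi * z i))
      (((2 * Real.pi) * (a i * Real.cos (2 * Real.pi * z i) -
      b i * Real.sin (2 * Real.pi * z i))) • (ContinuousLinearMap.proj (R := ℝ)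
        (φ := fun _ : Fin d => ℝ) i)) z := by
    intro i
    have hp : HasFDerivAt (fun z : Fin d → ℝ => z i) (ContinuousLinearMap.proj (R := ℝ)
        (φ := fun _ : Fin d => ℝ) i) z := hasFDerivAt_apply i z
    have h1 : HasDerivAt (fun t : ℝ => a i * Real.sin (2 * Real.pi * t) +
        b i * Real.cos (2 * Real.pi * t)) ((2 * Real.pi) * (a i * Real.cos (2 * Real.pi * z i) -
        b i * Real.sin (2 * Real.pi * z i))) (z i) := by
      have h2 : HasDerivAt (fun t : ℝ => 2 * Real.pi * t) (2 * Real.pi) (z i) := by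
        simpa using (hasDerivAt_id (z i)).const_mul (2 * Real.pi)
      have h3 := (h2.sin.const_mul (a i)).add (h2.cos.const_mul (b i))
      have e1 : (2 * Real.pi) * (a i * Real.cos (2 * Real.pi * z i) -
          b i * Real.sin (2 * Real.pi * z i)) =
          a i * (Real.cos (2 * Real.pi * z i) * (2 * Real.pi)) +
          b i * (-Real.sin (2 * Real.pi * z i) * (2 * Real.pi)) := by ring
      rw [e1]
      exact h3
    exact h1.comp_hasFDerivAt z hp
  have := HasFDerivAt.fun_sum (u := Finset.univ) (fun i _ => h i)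
  exact this

theorem trig_contDiff (a b : Fin d → ℝ) : ContDiff ℝ 2 (trig a b) := by
  have h1 : ∀ i : Fin d, ContDiff ℝ 2 (fun z : Fin d → ℝ => z i) := fun i =>
    contDiff_apply ℝ ℝ i
  apply ContDiff.sum
  intro i _
  exact (contDiff_const.mul (Real.contDiff_sin.comp (contDiff_const.mul (h1 i)))).add
    (contDiff_const.mul (Real.contDiff_cos.comp (contDiff_const.mul (h1 i))))

theorem trig_periodic (a b z n : Fin d → ℝ) (hn : IsInt n) : trig a b (z + n) = trig a b z := by
  unfold trig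
  apply Finset.sum_congr rfl
  intro i _
  obtain ⟨m, hm⟩ := hn i
  have h : 2 * Real.pi * (z + n) i = 2 * Real.pi * z i + m * (2 * Real.pi) := by
    rw [Pi.add_apply, hm]; ring
  rw [h, Real.sin_add_int_mul_two_pi, Real.cos_add_int_mul_two_pi]

/-- the critical equation -/
theorem crit_eq {H : (Fin d → ℝ) → ℝ} (hH : ContDiff ℝ 2 H) {a b z : Fin d → ℝ}
    (hz : fderiv ℝ (fun z => H z + trig a b z) z = 0) (i : Fin d) :
    a i * Real.cos (2 * Real.pi * z i) - b i * Real.sin (2 * Real.pi * z i) = qq H i z := by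
  have h1 : HasFDerivAt H (fderiv ℝ H z) z := (hH.differentiable (by norm_num) z).hasFDerivAt
  have h2 := h1.add (trig_hasFDerivAt a b z)
  have h3 := h2.fderiv
  have h4 : fderiv ℝ (fun z => H z + trig a b z) z = fderiv ℝ (H + trig a b) z := rfl
  rw [h4, h3] at hz
  have h5 := congrArg (fun L : (Fin d → ℝ) →L[ℝ] ℝ => L (Pi.single i 1)) hz
  simp only [add_apply, sum_apply, smul_apply, ContinuousLinearMap.proj_apply, zero_apply,
    smul_eq_mul] at h5
  rw [Finset.sum_eq_single i] at h5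
  · rw [Pi.single_eq_same, mul_one] at h5
    rw [qq, eq_div_iff (by positivity)]
    linarith
  · intro j _ hj
    rw [Pi.single_eq_of_ne hj, mul_zero]
  · intro h; exact absurd (Finset.mem_univ i) h

/-- the second coordinate -/
noncomputable def pp (a b : Fin d → ℝ) (z : Fin d → ℝ) : Fin d → ℝ := fun i =>
  a i * Real.sin (2 * Real.pi * z i) + b i * Real.cos (2 * Real.pi * z i)

theorem pp_cont (a b : Fin d → ℝ) : Continuous (pp a b) := by
  unfold pp
  fun_prop

theorem Th_crit {H : (Fin d → ℝ) → ℝ} (hH : ContDiff ℝ 2 H) {a b z : Fin d → ℝ}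
    (hz : fderiv ℝ (fun z => H z + trig a b z) z = 0) : Th H (z, pp a b z) = (a, b) := by
  have h1 := crit_eq hH hz
  have h2 : ∀ i, Real.sin (2 * Real.pi * z i) ^ 2 + Real.cos (2 * Real.pi * z i) ^ 2 = 1 :=
    fun i => Real.sin_sq_add_cos_sq _
  refine Prod.ext ?_ ?_
  · funext i
    change qq H i z * Real.cos (2 * Real.pi * z i) +
      (a i * Real.sin (2 * Real.pi * z i) + b i * Real.cos (2 * Real.pi * z i)) *
        Real.sin (2 * Real.pi * z i) = a i
    rw [← h1 i]
    linear_combination (a i) * h2 i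
  · funext i
    change -(qq H i z) * Real.sin (2 * Real.pi * z i) +
      (a i * Real.sin (2 * Real.pi * z i) + b i * Real.cos (2 * Real.pi * z i)) *
        Real.cos (2 * Real.pi * z i) = b i
    rw [← h1 i]
    linear_combination (b i) * h2 i

/-- critical points are isolated -/
theorem crit_isolated {H : (Fin d → ℝ) → ℝ} (hH : ContDiff ℝ 2 H) {a b z : Fin d → ℝ}
    (hreg : ∀ x, Th H x = (a, b) → (fderiv ℝ (Th H) x).det ≠ 0)
    (hz : fderiv ℝ (fun z => H z + trig a b z) z = 0) :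
    ∀ᶠ w in 𝓝[≠] z, fderiv ℝ (fun z => H z + trig a b z) w ≠ 0 := by
  have h1 := Th_crit hH hz
  have h2 := hreg _ h1
  have hd : HasFDerivAt (Th H) (fderiv ℝ (Th H) (z, pp a b z)) (z, pp a b z) :=
    ((Th_contDiff hH).differentiable one_ne_zero _).hasFDerivAt
  have h3 : ∃ C, AntilipschitzWith C (fderiv ℝ (Th H) (z, pp a b z)) := by
    exact ⟨_, ((fderiv ℝ (Th H) (z, pp a b z)).toContinuousLinearEquivOfDetNeZero
      h2).antilipschitz⟩
  have h4 := hd.eventually_ne (c := (a, b)) h3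
  rw [eventually_nhdsWithin_iff] at h4 ⊢
  have h5 : Tendsto (fun w => (w, pp a b w)) (𝓝 z) (𝓝 (z, pp a b z)) :=
    (continuous_id.prodMk (pp_cont a b)).tendsto z
  filter_upwards [h5.eventually h4] with w hw hwz hcrit
  exact hw (fun h => hwz (congrArg Prod.fst h)) (Th_crit hH hcrit)

/-- MORSE -/
theorem morse : S_MORSE := by
  intro d H hH hper ε hε
  obtain ⟨a, b, ha, hb, hreg⟩ := exists_regular hH hε
  refine ⟨a, b, ha, hb, ?_⟩
  set G : (Fin d → ℝ) → ℝ := fun z => H z + trig a b z with hG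
  have hGc : ContDiff ℝ 2 G := hH.add (trig_contDiff a b)
  have hGd : Continuous (fderiv ℝ G) := hGc.continuous_fderiv (by norm_num)
  have hGp : ∀ z n, IsInt n → G (z + n) = G z := by
    intro z n hn
    simp only [hG]
    rw [hper z n hn, trig_periodic a b z n hn]
  set S : Set (Fin d → ℝ) := {z | z ∈ Icc (0 : Fin d → ℝ) 1 ∧ fderiv ℝ G z = 0} with hS
  have hSf : S.Finite := by
    by_contra hinf
    have hcl : IsClosed S := by
      apply isClosed_Icc.inter
      exact isClosed_eq hGd continuous_const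
    obtain ⟨x, hx, hacc⟩ := Set.Infinite.exists_accPt_of_subset_isCompact hinf
      (isCompact_Icc (a := (0 : Fin d → ℝ)) (b := 1)) (fun z hz => hz.1)
    have hxS : x ∈ S := by
      have := hacc.clusterPt.mem_closure
      rwa [hcl.closure_eq] at this
    have h1 := crit_isolated hH hreg hxS.2
    rw [accPt_iff_frequently_nhdsNE] at hacc
    exact hacc (h1.mono fun w hw hwS => hw hwS.2)
  refine (hSf.image toTorus).subset ?_
  rintro x ⟨z, rfl, hz⟩
  have hn : IsInt (fun i => (⌊z i⌋ : ℝ)) := fun i => ⟨⌊z i⌋, rfl⟩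
  refine ⟨fun i => Int.fract (z i), ⟨⟨fun i => Int.fract_nonneg _, fun i =>
    (Int.fract_lt_one _).le⟩, ?_⟩, ?_⟩
  · have h1 : z = (fun i => Int.fract (z i)) + fun i => (⌊z i⌋ : ℝ) := by
      funext i
      exact (Int.fract_add_floor (z i)).symm
    have h2 : (fun w => G (w + fun i => (⌊z i⌋ : ℝ))) = G := by
      funext w
      exact hGp w _ hn
    have h3 := fderiv_comp_add_right (𝕜 := ℝ) (f := G) (x := fun i => Int.fract (z i))
      (fun i => (⌊z i⌋ : ℝ))
    rw [h2, ← h1, hz] at h3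
    exact h3
  · funext i
    change ((Int.fract (z i) : ℝ) : UnitAddCircle) = ((z i : ℝ) : UnitAddCircle)
    have h1 : z i = Int.fract (z i) + ⌊z i⌋ := (Int.fract_add_floor (z i)).symm
    have h2 : ((⌊z i⌋ : ℝ) : UnitAddCircle) = 0 := by
      rw [AddCircle.coe_eq_zero_iff]
      exact ⟨⌊z i⌋, by simp⟩
    conv_rhs => rw [h1, AddCircle.coe_add, h2, add_zero]

end Pool.Agent.Y625.MH
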